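import Mathlib
import Pool.Agent.Q99.GU.Defs
import Pool.Agent.Q99.GU.Gur
import Pool.Agent.Q99.GU.Fin

set_option autoImplicit false

/-!
# A Gurarii space of density `ℵ₁` with a monotone transfinite Schauder basis

The space is the closed linear span in `ℓ_∞(ω₁)` of vectors `e_α`, `α < ω₁`, with `e_α(γ) = 0` for
`γ < α`, `e_α(α) = 1` and `e_α(γ) = ∑_β c_γ(β) e_α(β)` for `γ > α`, where `c_γ` is a finitely
supported rational function on `γ` with `∑ |c_γ(β)| ≤ 1`, and every such function occurs as `c_γ`
for cofinally many `γ`. The span of finitely many `e_α`, `α ∈ A`, is isometric to `ℓ_∞^A` by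
restriction to `A`.
-/

namespace Pool.Agent.Results.MP_63eeb0_an.GurariiBasis

open Q99.GU Cardinal

/-- There is a Gurarii space of density `ℵ₁` with a monotone transfinite Schauder basis. -/
theorem result : ∃ (X : Type) (_ : NormedAddCommGroup X) (_ : NormedSpace ℝ X),
    IsGurarii X ∧ IsLeast {κ : Cardinal | ∃ s : Set X, Dense s ∧ #s = κ} ℵ₁ ∧
    ∃ (l : Ordinal.{0}) (v : Ordinal.{0} → X) (P : Ordinal.{0} → X →L[ℝ] X),
      IsMonotoneTransfiniteBasis l v P := by
  let l : Ordinal.{0} := (ℵ₁ : Cardinal.{0}).ord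
  have hl : #l.ToType = ℵ₁ := by simp [l]
  have hinf : Infinite l.ToType := by
    rw [Cardinal.infinite_iff, hl]
    exact aleph0_le_aleph 1
  have hcount : ∀ i : l.ToType, (Set.Iic i).Countable := by
    intro i
    have h1 : #(Set.Iio i) < ℵ₁ := by
      have := Cardinal.mk_Iio_lt i (by simp [l])
      rwa [hl] at this
    have h2 : (Set.Iio i).Countable := by
      rw [← Cardinal.le_aleph0_iff_set_countable]
      rwa [← Order.lt_succ_iff, Cardinal.succ_aleph0]
    have h3 : Set.Iic i = insert i (Set.Iio i) := Set.Iio_insert.symm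
    rw [h3]
    exact h2.insert i
  obtain ⟨c, hc, hr⟩ := exists_data l.ToType hl hcount
  exact ⟨XX hc, inferInstance, inferInstance, isGurarii hc hr, isLeast_density hc hl,
    l, vO hc, PP hc, isBasis hc⟩

end Pool.Agent.Results.MP_63eeb0_an.GurariiBasis
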